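import Pool.Agent.helper53.SP4.Spec

set_option autoImplicit false

namespace Pool.Agent.SP4

open Pool.Agent.GS

/-- elements fixed by the `q`-Frobenius are in `F` -/
theorem S4Q_fix (F K : Type) [Field F] [Finite F] [Field K] [Algebra F K] (x : K) (hx : x ^ Nat.card F = x) :
    ∃ y : F, algebraMap F K y = x := by
  classical
  have _ : Fintype F := Fintype.ofFinite F
  rw [Nat.card_eq_fintype_card] at hx
  by_contra hne
  push Not at hne
  have h1 := FiniteField.X_pow_card_sub_X_natDegree_eq K (p := Fintype.card F) Fintype.one_lt_card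
  have h0 := FiniteField.X_pow_card_sub_X_ne_zero K (p := Fintype.card F) Fintype.one_lt_card
  set P : Polynomial K := Polynomial.X ^ Fintype.card F - Polynomial.X with hP
  have hsub : insert x (Finset.univ.image (algebraMap F K)) ⊆ P.roots.toFinset := by
    intro z hz
    rw [Multiset.mem_toFinset, Polynomial.mem_roots h0, hP]
    simp only [Polynomial.IsRoot.def, Polynomial.eval_sub, Polynomial.eval_pow, Polynomial.eval_X]
    rw [Finset.mem_insert, Finset.mem_image] at hz
    rcases hz with rfl | ⟨y, -, rfl⟩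
    · rw [hx, sub_self]
    · rw [← map_pow, FiniteField.pow_card, sub_self]
  have hc := Finset.card_le_card hsub
  have hc2 : P.roots.toFinset.card ≤ Fintype.card F := by
    calc P.roots.toFinset.card ≤ Multiset.card P.roots := Multiset.toFinset_card_le _
      _ ≤ P.natDegree := Polynomial.card_roots' P
      _ = Fintype.card F := h1
  rw [Finset.card_insert_of_notMem, Finset.card_image_of_injective _ (algebraMap F K).injective,
    Finset.card_univ] at hc
  · omega
  · intro hm
    rw [Finset.mem_image] at hm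
    obtain ⟨y, -, hy⟩ := hm
    exact hne y hy

theorem S4Q_sq (F : Type) [Field F] [CharP F 2] [Finite F] (x : F) : ∃ y : F, y * y = x := by
  obtain ⟨y, hy⟩ := FiniteField.isSquare_of_char_two (F := F) (ringChar.eq F 2) x
  exact ⟨y, hy.symm⟩

/-- the field part -/
theorem S4Q_field (F : Type) [Field F] [CharP F 2] [Finite F] (r : ℕ) (hr : r.Prime) (hr2 : r ≠ 2)
    (hd : r ∣ Nat.card F ^ 4 - 1) :
    ∃ (K : Type) (_ : Field K) (_ : Algebra F K) (z mu : K) (c1 c2 : F), IsPrimitiveRoot z r ∧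
      c2 ≠ 0 ∧ z * z + mu * z + 1 = 0 ∧
      mu * mu + algebraMap F K (1 + c1 * c1 + c2 * c2) * mu + algebraMap F K (c2 * c2) = 0 := by
  classical
  have hK2 : CharP (AlgebraicClosure F) 2 := charP_of_injective_algebraMap (algebraMap F _).injective 2
  let K := AlgebraicClosure F
  have hK : CharP K 2 := hK2
  have _ : Fintype F := Fintype.ofFinite F
  have hrK : (r : K) ≠ 0 := by
    intro h
    rw [CharP.cast_eq_zero_iff K 2 r] at h
    rcases (Nat.dvd_prime hr).1 h with h | h
    · omega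
    · exact hr2 h.symm
  have hne : NeZero (r : K) := ⟨hrK⟩
  obtain ⟨z, hz⟩ := HasEnoughRootsOfUnity.exists_primitiveRoot K r
  obtain ⟨n, hp, hcard⟩ := FiniteField.card F 2
  set q := Nat.card F with hq
  have hqn : q = 2 ^ (n : ℕ) := by rw [hq, Nat.card_eq_fintype_card, hcard]
  have hz0 : z ≠ 0 := hz.ne_zero hr.ne_zero
  have hzi : z * z⁻¹ = 1 := mul_inv_cancel₀ hz0
  have h2 : ∀ x : K, x + x = 0 := fun x => CharTwo.add_self_eq_zero x
  let mu : K := z + z⁻¹
  have hfr : ∀ (x y : K) (k : ℕ), (x + y) ^ q ^ k = x ^ q ^ k + y ^ q ^ k := by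
    intro x y k
    rw [hqn, ← pow_mul]
    exact add_pow_char_pow x y 2 _
  have hfr1 : ∀ (x y : K), (x + y) ^ q = x ^ q + y ^ q := by
    intro x y
    have := hfr x y 1
    rwa [pow_one] at this
  have hq1 : 1 ≤ q := by rw [hqn]; exact Nat.one_le_two_pow
  -- mu ^ (q ^ 2) = mu
  have hmu : mu ^ q ^ 2 = mu := by
    have hfac : q ^ 4 - 1 = (q ^ 2 - 1) * (q ^ 2 + 1) := by
      have h1 : 1 ≤ q ^ 2 := Nat.one_le_pow _ _ hq1
      obtain ⟨m, hm⟩ := Nat.exists_eq_add_of_le h1
      have h4 : q ^ 4 = q ^ 2 * q ^ 2 := by ring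
      rw [h4, hm]
      have e1 : 1 + m - 1 = m := by omega
      rw [e1]
      have e2 : (1 + m) * (1 + m) = m * (1 + m + 1) + 1 := by ring
      rw [e2]
      omega
    rw [hfac] at hd
    show (z + z⁻¹) ^ q ^ 2 = z + z⁻¹
    rw [hfr, inv_pow]
    rcases (Nat.Prime.dvd_mul hr).1 hd with h | h
    · obtain ⟨m, hm⟩ := h
      have h1 : 1 ≤ q ^ 2 := Nat.one_le_pow _ _ hq1
      have e : q ^ 2 = r * m + 1 := by omega
      have ez : z ^ q ^ 2 = z := by
        rw [e, pow_succ, pow_mul, hz.pow_eq_one, one_pow, one_mul]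
      rw [ez]
    · obtain ⟨m, hm⟩ := h
      have ez : z ^ q ^ 2 = z⁻¹ := by
        apply eq_inv_of_mul_eq_one_left
        rw [← pow_succ, hm, pow_mul, hz.pow_eq_one, one_pow]
      rw [ez, inv_inv, add_comm]
  have hmu0 : mu ≠ 0 := by
    intro h
    have h1 : z * z = 1 := by
      have h3 : z * (z + z⁻¹) = 0 := by
        show z * mu = 0
        rw [h, mul_zero]
      rw [mul_add, hzi] at h3
      have h4 : z * z = (z * z + 1) + 1 := by rw [add_assoc, h2, add_zero]
      rw [h4, h3, zero_add]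
    have h5 : r ∣ 2 := hz.dvd_of_pow_eq_one 2 (by rw [pow_two]; exact h1)
    exact hr2 ((Nat.prime_dvd_prime_iff_eq hr Nat.prime_two).1 h5)
  obtain ⟨s, hs⟩ := S4Q_fix F K (mu + mu ^ q) (by
    rw [← hq, hfr1, ← pow_mul, ← pow_two, hmu, add_comm])
  obtain ⟨d, hdd⟩ := S4Q_fix F K (mu * mu ^ q) (by
    rw [← hq, mul_pow, ← pow_mul, ← pow_two, hmu, mul_comm])
  obtain ⟨c2, hc2⟩ := S4Q_sq F d
  obtain ⟨e, he⟩ := S4Q_sq F s
  refine ⟨K, inferInstance, inferInstance, z, mu, 1 + c2 + e, c2, hz, ?_, ?_, ?_⟩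
  · rintro rfl
    rw [mul_zero] at hc2
    rw [← hc2, map_zero] at hdd
    rcases mul_eq_zero.1 hdd.symm with h | h
    · exact hmu0 h
    · exact hmu0 (pow_eq_zero_iff (by omega) |>.1 h)
  · show z * z + (z + z⁻¹) * z + 1 = 0
    have : z⁻¹ * z = 1 := inv_mul_cancel₀ hz0
    rw [add_mul, this, ← add_assoc, h2, zero_add, h2]
  · have h2F : ∀ x : F, x + x = 0 := fun x => CharTwo.add_self_eq_zero x
    have e1 : 1 + (1 + c2 + e) * (1 + c2 + e) + c2 * c2 = s := by
      have : 1 + (1 + c2 + e) * (1 + c2 + e) + c2 * c2 =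
          e * e + ((1 + 1) + (c2 + c2) + (e + e) + (c2 * e + c2 * e) + (c2 * c2 + c2 * c2)) := by ring
      rw [this, h2F 1, h2F c2, h2F e, h2F (c2 * e), h2F (c2 * c2), he]
      ring
    rw [e1, hc2, hs, hdd]
    have : mu * mu + (mu + mu ^ q) * mu + mu * mu ^ q =
        (mu * mu + mu * mu) + (mu * mu ^ q + mu * mu ^ q) := by ring
    rw [this, h2, h2, add_zero]

/-- the matrix of the product -/
def S4Q_A {F : Type} [Field F] (c1 c2 : F) : Matrix (Fin 4) (Fin 4) F :=
  !![1 + (1 + c1 * c1), c1 * c2, 0, 1;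
     c1 * c2, 1 + c2 * c2, 1, 0;
     c1 * c2, c2 * c2, 1, 0;
     1 + c1 * c1, c1 * c2, 0, 1]

theorem S4Q_act {F : Type} [Field F] (c1 c2 : F) (c c' : SG F) (hc : IsC2 (Pi.single 0 1) (Pi.single 1 1) c)
    (hc' : IsC2 (Pi.single 3 1) (c1 • Pi.single 3 1 + c2 • Pi.single 2 1) c') (w : Fin 4 → F) :
    ((c * c' : SG F) : (Fin 4 → F) ≃ₗ[F] (Fin 4 → F)) w = (S4Q_A c1 c2).mulVec w := by
  have e : ((c * c' : SG F) : (Fin 4 → F) ≃ₗ[F] (Fin 4 → F)) w =
      (c : (Fin 4 → F) ≃ₗ[F] (Fin 4 → F)) ((c' : (Fin 4 → F) ≃ₗ[F] (Fin 4 → F)) w) := rfl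
  rw [e, hc, hc']
  funext i
  fin_cases i <;>
    simp [B, S4Q_A, Matrix.mulVec, dotProduct, Fin.sum_univ_four] <;> ring

theorem S4Q_pow {F : Type} [Field F] (A : Matrix (Fin 4) (Fin 4) F) (g : SG F)
    (h : ∀ w, (g : (Fin 4 → F) ≃ₗ[F] (Fin 4 → F)) w = A.mulVec w) (m : ℕ) :
    ∀ w, ((g ^ m : SG F) : (Fin 4 → F) ≃ₗ[F] (Fin 4 → F)) w = (A ^ m).mulVec w := by
  induction m with
  | zero => intro w; rw [pow_zero, pow_zero, Matrix.one_mulVec]; rfl
  | succ m ih =>
    intro w
    rw [pow_succ, pow_succ, ← Matrix.mulVec_mulVec, ← h, ← ih]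
    rfl

theorem S4Q : S4Q_stmt := by
  intro F _ _ _ r hr hr2 hd
  obtain ⟨K, _, _, z, mu, c1, c2, hz, hc2, hzm, hmu⟩ := S4Q_field F r hr hr2 hd
  have hK : CharP K 2 := charP_of_injective_algebraMap (algebraMap F K).injective 2
  have h2 : ∀ x : K, x + x = 0 := fun x => CharTwo.add_self_eq_zero x
  refine ⟨Pi.single 3 1, c1 • Pi.single 3 1 + c2 • Pi.single 2 1, ⟨?_, ?_⟩, ?_⟩
  · rw [LinearIndependent.pair_iff]
    intro s t hst
    have h2' := congrFun hst 2
    have h3' := congrFun hst 3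
    simp at h2' h3'
    rcases h2' with h | h
    · rw [h] at h3'
      simp at h3'
      exact ⟨h3', h⟩
    · exact absurd h hc2
  · simp [B]
  · intro c c' hc hc' m hm
    have hA := S4Q_pow (S4Q_A c1 c2) (c * c') (S4Q_act c1 c2 c c' hc hc') m
    have hAm : (S4Q_A c1 c2) ^ m = 1 := by
      apply Matrix.ext_of_mulVec_single
      intro i
      rw [← hA, hm, Matrix.one_mulVec]
      rfl
    -- over K
    let f := algebraMap F K
    have hAK : ((S4Q_A c1 c2).map f) ^ m = 1 := by
      have : ((S4Q_A c1 c2).map f) ^ m = ((S4Q_A c1 c2) ^ m).map f := by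
        have h := map_pow (RingHom.mapMatrix (m := Fin 4) f) (S4Q_A c1 c2) m
        exact h.symm
      rw [this, hAm]
      exact map_one (RingHom.mapMatrix (m := Fin 4) f)
    -- eigenvector of M
    obtain ⟨w1, w2, hw, hM1, hM2⟩ : ∃ w1 w2 : K, ¬ (w1 = 0 ∧ w2 = 0) ∧
        (1 + f c1 * f c1) * w1 + f c1 * f c2 * w2 = mu * w1 ∧
        f c1 * f c2 * w1 + f c2 * f c2 * w2 = mu * w2 := by
      have hmu' : mu * mu + (1 + f c1 * f c1 + f c2 * f c2) * mu + f c2 * f c2 = 0 := by
        have := hmu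
        simpa only [map_add, map_mul, map_one] using this
      by_cases h0 : f c1 * f c2 = 0 ∧ mu + 1 + f c1 * f c1 = 0
      · refine ⟨1, 0, ?_, ?_, ?_⟩
        · rintro ⟨h, -⟩
          exact one_ne_zero h
        · have h3 := h0.2
          have h4 : 1 + f c1 * f c1 = mu := by
            have : (mu + 1 + f c1 * f c1) + mu = 1 + f c1 * f c1 := by
              have : (mu + 1 + f c1 * f c1) + mu = (mu + mu) + (1 + f c1 * f c1) := by ring
              rw [this, h2, zero_add]
            rw [← this, h3, zero_add]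
          rw [h4, mul_zero, add_zero]
        · rw [h0.1]; ring
      · refine ⟨f c1 * f c2, mu + 1 + f c1 * f c1, h0, ?_, ?_⟩
        · have : (1 + f c1 * f c1) * (f c1 * f c2) + f c1 * f c2 * (mu + 1 + f c1 * f c1) =
              mu * (f c1 * f c2) + (f c1 * f c2 * (1 + f c1 * f c1) + f c1 * f c2 * (1 + f c1 * f c1)) := by ring
          rw [this, h2, add_zero]
        · have e1 : f c1 * f c2 * (f c1 * f c2) + f c2 * f c2 * (mu + 1 + f c1 * f c1) +
              mu * (mu + 1 + f c1 * f c1) =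
              (mu * mu + (1 + f c1 * f c1 + f c2 * f c2) * mu + f c2 * f c2) +
                (f c1 * f c2 * (f c1 * f c2) + f c1 * f c2 * (f c1 * f c2)) := by ring
          rw [hmu', h2, add_zero] at e1
          have e2 : ∀ a b : K, a + b = 0 → a = b := by
            intro a b hab
            have : a = (a + b) + b := by rw [add_assoc, h2, add_zero]
            rw [this, hab, zero_add]
          exact e2 _ _ e1
    -- eigenvector of the matrix
    let v : Fin 4 → K := ![(z + 1) * w1, (z + 1) * w2, mu * w2, mu * w1]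
    have hz1 : z * z = mu * z + 1 := by
      have : z * z = (z * z + mu * z + 1) + (mu * z + 1) := by
        have : (z * z + mu * z + 1) + (mu * z + 1) = z * z + ((mu * z + mu * z) + (1 + 1)) := by ring
        rw [this, h2, h2, add_zero, add_zero]
      rw [this, hzm, zero_add]
    have hv : ((S4Q_A c1 c2).map f).mulVec v = z • v := by
      funext i
      fin_cases i
      · simp [S4Q_A, Matrix.mulVec, dotProduct, Fin.sum_univ_four, v]
        have : (1 + (1 + f c1 * f c1)) * ((z + 1) * w1) + f c1 * f c2 * ((z + 1) * w2) + mu * w1 =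
            (z + 1) * w1 + (z + 1) * ((1 + f c1 * f c1) * w1 + f c1 * f c2 * w2) + mu * w1 := by ring
        rw [this, hM1]
        have : z * ((z + 1) * w1) = (z * z) * w1 + z * w1 := by ring
        rw [this, hz1]
        have : (z + 1) * w1 + (z + 1) * (mu * w1) + mu * w1 =
          (mu * z + 1) * w1 + z * w1 + (mu * w1 + mu * w1) := by ring
        rw [this, h2, add_zero]
      · simp [S4Q_A, Matrix.mulVec, dotProduct, Fin.sum_univ_four, v]
        have : f c1 * f c2 * ((z + 1) * w1) + (1 + f c2 * f c2) * ((z + 1) * w2) + mu * w2 =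
            (z + 1) * w2 + (z + 1) * (f c1 * f c2 * w1 + f c2 * f c2 * w2) + mu * w2 := by ring
        rw [this, hM2]
        have : z * ((z + 1) * w2) = (z * z) * w2 + z * w2 := by ring
        rw [this, hz1]
        have : (z + 1) * w2 + (z + 1) * (mu * w2) + mu * w2 =
          (mu * z + 1) * w2 + z * w2 + (mu * w2 + mu * w2) := by ring
        rw [this, h2, add_zero]
      · simp [S4Q_A, Matrix.mulVec, dotProduct, Fin.sum_univ_four, v]
        have : f c1 * f c2 * ((z + 1) * w1) + f c2 * f c2 * ((z + 1) * w2) + mu * w2 =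
            (z + 1) * (f c1 * f c2 * w1 + f c2 * f c2 * w2) + mu * w2 := by ring
        rw [this, hM2]
        have : (z + 1) * (mu * w2) + mu * w2 = z * (mu * w2) + (mu * w2 + mu * w2) := by ring
        rw [this, h2, add_zero]
      · simp [S4Q_A, Matrix.mulVec, dotProduct, Fin.sum_univ_four, v]
        have : (1 + f c1 * f c1) * ((z + 1) * w1) + f c1 * f c2 * ((z + 1) * w2) + mu * w1 =
            (z + 1) * ((1 + f c1 * f c1) * w1 + f c1 * f c2 * w2) + mu * w1 := by ring
        rw [this, hM1]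
        have : (z + 1) * (mu * w1) + mu * w1 = z * (mu * w1) + (mu * w1 + mu * w1) := by ring
        rw [this, h2, add_zero]
    have hvm : ∀ k : ℕ, (((S4Q_A c1 c2).map f) ^ k).mulVec v = z ^ k • v := by
      intro k
      induction k with
      | zero => rw [pow_zero, pow_zero, Matrix.one_mulVec, one_smul]
      | succ k ih =>
        rw [pow_succ, ← Matrix.mulVec_mulVec, hv, Matrix.mulVec_smul, ih, smul_smul, pow_succ, mul_comm]
    have hfin := hvm m
    rw [hAK, Matrix.one_mulVec] at hfin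
    -- v ≠ 0
    have hz11 : z + 1 ≠ 0 := by
      intro h
      have h1 : z = 1 := by
        have : z = (z + 1) + 1 := by rw [add_assoc, h2, add_zero]
        rw [this, h, zero_add]
      have := hz.dvd_of_pow_eq_one 1 (by rw [pow_one]; exact h1)
      exact hr.one_lt.ne' (Nat.dvd_one.1 this)
    have hzm1 : z ^ m = 1 := by
      by_contra hne
      have h5 : ∀ i, v i = 0 := by
        intro i
        have h6 := congrFun hfin i
        simp only [Pi.smul_apply, smul_eq_mul] at h6
        by_contra hvi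
        apply hne
        have h7 : (z ^ m) * v i = 1 * v i := by rw [one_mul]; exact h6.symm
        exact mul_right_cancel₀ hvi h7
      apply hw
      have h8 : (z + 1) * w1 = 0 := h5 0
      have h9 : (z + 1) * w2 = 0 := h5 1
      exact ⟨(mul_eq_zero.1 h8).resolve_left hz11, (mul_eq_zero.1 h9).resolve_left hz11⟩
    exact hz.dvd_of_pow_eq_one m hzm1

end Pool.Agent.SP4
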